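import Mathlib
import Pool.Agent.helper47.SPI.Spec

/-!
# SPI, row PLN: Plancherel
-/

set_option autoImplicit false

namespace Pool.Agent.SPI

open Finset Pool.Agent.helper85.PG

private lemma PLN_conj {p : ℕ} [NeZero p] (x : ZMod p) :
    (starRingEnd ℂ) (ZMod.stdAddChar x : ℂ) = (ZMod.stdAddChar (-x) : ℂ) := by
  rw [AddChar.map_neg_eq_conj]

private lemma PLN_norm {p : ℕ} [NeZero p] (A : Finset (ZMod p)) (w : ZMod p → ℂ) (t : ZMod p) :
    ((‖ft A w t‖ ^ 2 : ℝ) : ℂ) =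
      ∑ a ∈ A, ∑ b ∈ A, w a * (starRingEnd ℂ) (w b) * (ZMod.stdAddChar (t * (a - b)) : ℂ) := by
  have h1 : ((‖ft A w t‖ ^ 2 : ℝ) : ℂ) = ft A w t * (starRingEnd ℂ) (ft A w t) := by
    rw [Complex.mul_conj, Complex.normSq_eq_norm_sq]
  rw [h1]
  unfold ft
  rw [map_sum, Finset.sum_mul_sum]
  refine Finset.sum_congr rfl fun a _ => Finset.sum_congr rfl fun b _ => ?_
  have h2 : (starRingEnd ℂ) (w b * (ZMod.stdAddChar (t * b) : ℂ)) =
      (starRingEnd ℂ) (w b) * (ZMod.stdAddChar (-(t * b)) : ℂ) := by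
    rw [← PLN_conj]
    exact map_mul (starRingEnd ℂ) _ _
  rw [h2, mul_sub, sub_eq_add_neg, AddChar.map_add_eq_mul]
  ring

private lemma PLN_orth {p : ℕ} [Fact p.Prime] (c : ZMod p) :
    ∑ t : ZMod p, (ZMod.stdAddChar (t * c) : ℂ) = if c = 0 then (p : ℂ) else 0 := by
  have h := AddChar.sum_mulShift (ψ := (ZMod.stdAddChar : AddChar (ZMod p) ℂ)) c
    (ZMod.isPrimitive_stdAddChar p)
  rw [h, ZMod.card]
  split_ifs <;> simp

theorem PLN : PLN_stmt := by
  intro p _ A w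
  have h : ((∑ t : ZMod p, ‖ft A w t‖ ^ 2 : ℝ) : ℂ) = ((p * ∑ a ∈ A, ‖w a‖ ^ 2 : ℝ) : ℂ) := by
    rw [Complex.ofReal_sum]
    rw [Finset.sum_congr rfl fun t _ => PLN_norm A w t]
    rw [Finset.sum_comm]
    rw [Finset.sum_congr rfl fun a _ => Finset.sum_comm]
    rw [Complex.ofReal_mul, Complex.ofReal_sum, Finset.mul_sum]
    refine Finset.sum_congr rfl fun a ha => ?_
    have h2 : ∀ b ∈ A, ∑ t : ZMod p, w a * (starRingEnd ℂ) (w b) * (ZMod.stdAddChar (t * (a - b)) : ℂ)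
        = if a = b then w a * (starRingEnd ℂ) (w b) * (p : ℂ) else 0 := by
      intro b _
      rw [← Finset.mul_sum, PLN_orth]
      by_cases hab : a = b
      · simp [hab]
      · simp [hab, sub_eq_zero]
    rw [Finset.sum_congr rfl h2, Finset.sum_ite_eq, if_pos ha, Complex.mul_conj,
      Complex.normSq_eq_norm_sq]
    push_cast
    ring
  exact_mod_cast h

end Pool.Agent.SPI
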